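import Mathlib

/-!
# Product-free subsets of the unit interval have measure at most `1/3`

Every Lebesgue measurable (in particular every open) set `A ⊆ [0,1]` with `μ(A) > 1/3` contains
`x, y, z` with `x * y = z`.

Plan.  A compact product-free `K ⊆ (0,1)` is covered by geometric cells
`J_s = (ρ^(s+1), ρ^s]`, `s ∈ S`, and for `ρ` close to `1` the finite set `S ⊆ ℕ` satisfies
`i, j ∈ S → i + j ∉ S ∧ i + j + 1 ∉ S`.  The combinatorial heart is a lemma on two-coloured sets of
cells (`mono_dist`): if the smallest and the largest cell have the same colour then the number of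
distances realised inside a colour class is at least the number of cells.
-/

namespace Pool.Agent.Results.MP_56a44b_nt.Third

open Finset

/-- Two-coloured cells on the line: colour classes `U`, `V`; the extreme cells `a ≤ z` both belong
to `U`.  If `E` contains `0` and all the cell distances `j - i`, `j - i - 1` of monochromatic
pairs `i < j`, then `E` has at least `|U| + |V|` elements. -/
theorem mono_dist (n : ℕ) : ∀ (U V E : Finset ℤ) (a z : ℤ), Disjoint U V → a ∈ U → z ∈ U →
    (∀ x ∈ U, a ≤ x ∧ x ≤ z) → (∀ x ∈ V, a ≤ x ∧ x ≤ z) → (0 : ℤ) ∈ E →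
    (∀ i ∈ U, ∀ j ∈ U, i < j → j - i ∈ E ∧ j - i - 1 ∈ E) →
    (∀ i ∈ V, ∀ j ∈ V, i < j → j - i ∈ E ∧ j - i - 1 ∈ E) →
    U.card + V.card = n → n ≤ E.card := by
  induction n using Nat.strong_induction_on with
  | _ n ih =>
    intro U V E a z hd ha hz hU hV h0 hEU hEV hn
    have haV : a ∉ V := fun h => (Finset.disjoint_left.mp hd ha) h
    have hzV : z ∉ V := fun h => (Finset.disjoint_left.mp hd hz) h
    rcases eq_or_lt_of_le (hU a ha).2 with haz | haz
    · -- everything is a single cell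
      subst haz
      have hU1 : U ⊆ {a} := by
        intro x hx
        have := hU x hx
        rw [Finset.mem_singleton]; omega
      have hV1 : V = ∅ := by
        rw [Finset.eq_empty_iff_forall_notMem]
        intro x hx
        have h1 := hV x hx
        have : x = a := by omega
        subst this
        exact haV hx
      have h1 := Finset.card_le_card hU1
      rw [Finset.card_singleton] at h1
      have h2 : 1 ≤ E.card := Finset.card_pos.mpr ⟨0, h0⟩
      rw [hV1, Finset.card_empty] at hn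
      omega
    · -- the next cell after `a` and the last cell before `z`
      have hne1 : ((U ∪ V).erase a).Nonempty :=
        ⟨z, Finset.mem_erase.mpr ⟨by omega, Finset.mem_union_left _ hz⟩⟩
      have hne2 : ((U ∪ V).erase z).Nonempty :=
        ⟨a, Finset.mem_erase.mpr ⟨by omega, Finset.mem_union_left _ ha⟩⟩
      obtain ⟨p, hp, hpmin⟩ : ∃ p ∈ (U ∪ V).erase a, ∀ x ∈ (U ∪ V).erase a, p ≤ x :=
        ⟨_, Finset.min'_mem _ hne1, fun x hx => Finset.min'_le _ x hx⟩
      obtain ⟨q, hq, hqmax⟩ : ∃ q ∈ (U ∪ V).erase z, ∀ x ∈ (U ∪ V).erase z, x ≤ q :=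
        ⟨_, Finset.max'_mem _ hne2, fun x hx => Finset.le_max' _ x hx⟩
      rw [Finset.mem_erase, Finset.mem_union] at hp hq
      have hpa : a < p := by
        rcases hp.2 with h | h
        · have := hU p h; have := hp.1; omega
        · have := hV p h; have := hp.1; omega
      have hqz : q < z := by
        rcases hq.2 with h | h
        · have := hU q h; have := hq.1; omega
        · have := hV q h; have := hq.1; omega
      have hpU : ∀ x ∈ U, x ≠ a → p ≤ x := fun x hx hxa =>
        hpmin x (Finset.mem_erase.mpr ⟨hxa, Finset.mem_union_left _ hx⟩)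
      have hpV : ∀ x ∈ V, p ≤ x := fun x hx =>
        hpmin x (Finset.mem_erase.mpr ⟨fun h => haV (h ▸ hx), Finset.mem_union_right _ hx⟩)
      have hqU : ∀ x ∈ U, x ≠ z → x ≤ q := fun x hx hxz =>
        hqmax x (Finset.mem_erase.mpr ⟨hxz, Finset.mem_union_left _ hx⟩)
      have hqV : ∀ x ∈ V, x ≤ q := fun x hx =>
        hqmax x (Finset.mem_erase.mpr ⟨fun h => hzV (h ▸ hx), Finset.mem_union_right _ hx⟩)
      have hza : z - a ∈ E := (hEU a ha z hz haz).1
      have hza1 : z - a - 1 ∈ E := (hEU a ha z hz haz).2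
      have hcardE : (E.erase (z - a)).card = E.card - 1 := Finset.card_erase_of_mem hza
      have hEpos : 1 ≤ E.card := Finset.card_pos.mpr ⟨0, h0⟩
      have hUpos : 1 ≤ U.card := Finset.card_pos.mpr ⟨a, ha⟩
      rcases hp.2 with hpU' | hpV'
      · -- `p` has the colour of `a`: remove `a`
        have hc : (U.erase a).card = U.card - 1 := Finset.card_erase_of_mem ha
        have := ih (n - 1) (by omega) (U.erase a) V (E.erase (z - a)) p z
          (Finset.disjoint_of_subset_left (Finset.erase_subset _ _) hd)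
          (Finset.mem_erase.mpr ⟨hp.1, hpU'⟩)
          (Finset.mem_erase.mpr ⟨by omega, hz⟩)
          (fun x hx => ⟨hpU x (Finset.mem_of_mem_erase hx) (Finset.ne_of_mem_erase hx),
            (hU x (Finset.mem_of_mem_erase hx)).2⟩)
          (fun x hx => ⟨hpV x hx, (hV x hx).2⟩)
          (Finset.mem_erase.mpr ⟨by omega, h0⟩)
          (by
            intro i hi j hj hij
            have h1 := hEU i (Finset.mem_of_mem_erase hi) j (Finset.mem_of_mem_erase hj) hij
            have h2 := hpU i (Finset.mem_of_mem_erase hi) (Finset.ne_of_mem_erase hi)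
            have h3 := (hU j (Finset.mem_of_mem_erase hj)).2
            exact ⟨Finset.mem_erase.mpr ⟨by omega, h1.1⟩, Finset.mem_erase.mpr ⟨by omega, h1.2⟩⟩)
          (by
            intro i hi j hj hij
            have h1 := hEV i hi j hj hij
            have h2 := hpV i hi
            have h3 := (hV j hj).2
            exact ⟨Finset.mem_erase.mpr ⟨by omega, h1.1⟩, Finset.mem_erase.mpr ⟨by omega, h1.2⟩⟩)
          (by omega)
        omega
      · rcases hq.2 with hqU' | hqV'
        · -- `q` has the colour of `z`: remove `z`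
          have hc : (U.erase z).card = U.card - 1 := Finset.card_erase_of_mem hz
          have := ih (n - 1) (by omega) (U.erase z) V (E.erase (z - a)) a q
            (Finset.disjoint_of_subset_left (Finset.erase_subset _ _) hd)
            (Finset.mem_erase.mpr ⟨by omega, ha⟩)
            (Finset.mem_erase.mpr ⟨hq.1, hqU'⟩)
            (fun x hx => ⟨(hU x (Finset.mem_of_mem_erase hx)).1,
              hqU x (Finset.mem_of_mem_erase hx) (Finset.ne_of_mem_erase hx)⟩)
            (fun x hx => ⟨(hV x hx).1, hqV x hx⟩)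
            (Finset.mem_erase.mpr ⟨by omega, h0⟩)
            (by
              intro i hi j hj hij
              have h1 := hEU i (Finset.mem_of_mem_erase hi) j (Finset.mem_of_mem_erase hj) hij
              have h2 := hqU j (Finset.mem_of_mem_erase hj) (Finset.ne_of_mem_erase hj)
              have h3 := (hU i (Finset.mem_of_mem_erase hi)).1
              exact ⟨Finset.mem_erase.mpr ⟨by omega, h1.1⟩,
                Finset.mem_erase.mpr ⟨by omega, h1.2⟩⟩)
            (by
              intro i hi j hj hij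
              have h1 := hEV i hi j hj hij
              have h2 := hqV j hj
              have h3 := (hV i hi).1
              exact ⟨Finset.mem_erase.mpr ⟨by omega, h1.1⟩,
                Finset.mem_erase.mpr ⟨by omega, h1.2⟩⟩)
            (by omega)
          omega
        · -- both have the other colour: remove `a` and `z` and swap the colours
          have hpq : p ≤ q := hqV p hpV'
          have hc1 : (U.erase a).card = U.card - 1 := Finset.card_erase_of_mem ha
          have hz' : z ∈ U.erase a := Finset.mem_erase.mpr ⟨by omega, hz⟩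
          have hc2 : ((U.erase a).erase z).card = (U.erase a).card - 1 :=
            Finset.card_erase_of_mem hz'
          have hc3 : 1 ≤ (U.erase a).card := Finset.card_pos.mpr ⟨z, hz'⟩
          have hE1 : z - a - 1 ∈ E.erase (z - a) := Finset.mem_erase.mpr ⟨by omega, hza1⟩
          have hcE2 : ((E.erase (z - a)).erase (z - a - 1)).card = (E.erase (z - a)).card - 1 :=
            Finset.card_erase_of_mem hE1
          have hcE3 : 1 ≤ (E.erase (z - a)).card := Finset.card_pos.mpr ⟨_, hE1⟩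
          have hmem : ∀ x, x ∈ (U.erase a).erase z → x ∈ U ∧ x ≠ a ∧ x ≠ z := by
            intro x hx
            rw [Finset.mem_erase, Finset.mem_erase] at hx
            exact ⟨hx.2.2, hx.2.1, hx.1⟩
          have hmemE : ∀ x, x ∈ E → x ≠ z - a → x ≠ z - a - 1 →
              x ∈ (E.erase (z - a)).erase (z - a - 1) := by
            intro x hx h1 h2
            rw [Finset.mem_erase, Finset.mem_erase]
            exact ⟨h2, h1, hx⟩
          have := ih (n - 2) (by omega) V ((U.erase a).erase z)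
            ((E.erase (z - a)).erase (z - a - 1)) p q
            (Finset.disjoint_left.mpr fun x hx hx' =>
              Finset.disjoint_left.mp hd (hmem x hx').1 hx)
            hpV' hqV'
            (fun x hx => ⟨hpV x hx, hqV x hx⟩)
            (fun x hx => ⟨hpU x (hmem x hx).1 (hmem x hx).2.1, hqU x (hmem x hx).1 (hmem x hx).2.2⟩)
            (hmemE 0 h0 (by omega) (by omega))
            (by
              intro i hi j hj hij
              have h1 := hEV i hi j hj hij
              have h2 := hqV j hj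
              have h3 := hpV i hi
              exact ⟨hmemE _ h1.1 (by omega) (by omega), hmemE _ h1.2 (by omega) (by omega)⟩)
            (by
              intro i hi j hj hij
              have h1 := hEU i (hmem i hi).1 j (hmem j hj).1 hij
              have h2 := hqU j (hmem j hj).1 (hmem j hj).2.2
              have h3 := hpU i (hmem i hi).1 (hmem i hi).2.1
              exact ⟨hmemE _ h1.1 (by omega) (by omega), hmemE _ h1.2 (by omega) (by omega)⟩)
            (by omega)
          omega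

/-- The pointwise inequality for cell sum-free sets. -/
theorem pointwise (S : Finset ℤ) (m : ℤ) (hm : m ∈ S) (hmin : ∀ s ∈ S, m ≤ s) (hm1 : 1 ≤ m)
    (hS : ∀ i ∈ S, ∀ j ∈ S, i + j ∉ S ∧ i + j + 1 ∉ S) (x : ℤ) (hx : x ∈ S) :
    ((S.filter (· < x)).card : ℤ) + 2 * (S.filter (· ≤ x - m)).card ≤ x - m := by
  classical
  set U : Finset ℤ := S.filter (· ≤ x) with hUdef
  set V : Finset ℤ := (S.filter (· ≤ x - m)).image (· + m) with hVdef
  set E : Finset ℤ := (Finset.Icc 0 (x - m)) \ S with hEdef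
  have hmx := hmin x hx
  have hVcard : V.card = (S.filter (· ≤ x - m)).card :=
    Finset.card_image_of_injective _ (fun u v h => by simpa using h)
  have hUcard : U.card = (S.filter (· < x)).card + 1 := by
    have : U = insert x (S.filter (· < x)) := by
      ext y
      simp only [hUdef, Finset.mem_filter, Finset.mem_insert]
      constructor
      · rintro ⟨h1, h2⟩
        rcases eq_or_lt_of_le h2 with h | h
        · exact Or.inl h
        · exact Or.inr ⟨h1, h⟩
      · rintro (h | ⟨h1, h2⟩)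
        · subst h; exact ⟨hx, le_refl _⟩
        · exact ⟨h1, h2.le⟩
    rw [this, Finset.card_insert_of_notMem (by simp)]
  have hEcard : E.card + (S.filter (· ≤ x - m)).card = (Finset.Icc 0 (x - m)).card := by
    have h1 : S.filter (· ≤ x - m) = (Finset.Icc 0 (x - m)) ∩ S := by
      ext y
      simp only [Finset.mem_filter, Finset.mem_inter, Finset.mem_Icc]
      constructor
      · rintro ⟨h1, h2⟩
        have := hmin y h1
        exact ⟨⟨by omega, h2⟩, h1⟩
      · rintro ⟨⟨_, h2⟩, h1⟩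
        exact ⟨h1, h2⟩
    rw [h1, hEdef]
    exact Finset.card_sdiff_add_card_inter _ _
  have hIcc : ((Finset.Icc 0 (x - m)).card : ℤ) = x - m + 1 := by
    rw [Int.card_Icc]; omega
  have key : U.card + V.card ≤ E.card := by
    refine mono_dist (U.card + V.card) U V E m x ?_ ?_ ?_ ?_ ?_ ?_ ?_ ?_ rfl
    · rw [Finset.disjoint_left]
      intro y hy hy'
      simp only [hUdef, Finset.mem_filter] at hy
      simp only [hVdef, Finset.mem_image, Finset.mem_filter] at hy'
      obtain ⟨w, ⟨hw, _⟩, rfl⟩ := hy'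
      exact (hS w hw m hm).1 hy.1
    · simp only [hUdef, Finset.mem_filter]; exact ⟨hm, hmx⟩
    · simp only [hUdef, Finset.mem_filter]; exact ⟨hx, le_refl _⟩
    · intro y hy
      simp only [hUdef, Finset.mem_filter] at hy
      exact ⟨hmin y hy.1, hy.2⟩
    · intro y hy
      simp only [hVdef, Finset.mem_image, Finset.mem_filter] at hy
      obtain ⟨w, ⟨hw, hw2⟩, rfl⟩ := hy
      have := hmin w hw
      constructor <;> omega
    · simp only [hEdef, Finset.mem_sdiff, Finset.mem_Icc]
      refine ⟨⟨le_refl _, by omega⟩, fun h => ?_⟩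
      have := hmin 0 h
      omega
    · intro i hi j hj hij
      simp only [hUdef, Finset.mem_filter] at hi hj
      have hi1 := hmin i hi.1
      simp only [hEdef, Finset.mem_sdiff, Finset.mem_Icc]
      refine ⟨⟨⟨by omega, by omega⟩, fun h => ?_⟩, ⟨by omega, by omega⟩, fun h => ?_⟩
      · refine (hS i hi.1 _ h).1 ?_
        have : i + (j - i) = j := by ring
        rw [this]; exact hj.1
      · refine (hS i hi.1 _ h).2 ?_
        have : i + (j - i - 1) + 1 = j := by ring
        rw [this]; exact hj.1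
    · intro i hi j hj hij
      simp only [hVdef, Finset.mem_image, Finset.mem_filter] at hi hj
      obtain ⟨i, hi, rfl⟩ := hi
      obtain ⟨j, hj, rfl⟩ := hj
      have hi1 := hmin i hi.1
      simp only [hEdef, Finset.mem_sdiff, Finset.mem_Icc]
      refine ⟨⟨⟨by omega, by omega⟩, fun h => ?_⟩, ⟨by omega, by omega⟩, fun h => ?_⟩
      · refine (hS i hi.1 _ h).1 ?_
        have : i + (j + m - (i + m)) = j := by ring
        rw [this]; exact hj.1
      · refine (hS i hi.1 _ h).2 ?_
        have : i + (j + m - (i + m) - 1) + 1 = j := by ring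
        rw [this]; exact hj.1
  have : (U.card : ℤ) + V.card ≤ E.card := by exact_mod_cast key
  have h2 : (E.card : ℤ) + (S.filter (· ≤ x - m)).card = (Finset.Icc 0 (x - m)).card := by
    exact_mod_cast hEcard
  rw [hIcc] at h2
  rw [hUcard, hVcard] at this
  push_cast at this
  linarith

/-- In a finite set of integers, `2 * ∑ₓ #{s < x} = n * (n - 1)`. -/
theorem sum_below (S : Finset ℤ) :
    2 * ∑ x ∈ S, ((S.filter (· < x)).card : ℤ) = (S.card : ℤ) * (S.card - 1) := by
  have h1 : ∑ x ∈ S, (S.filter (fun s => x < s)).card = ∑ x ∈ S, (S.filter (· < x)).card :=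
    Finset.sum_card_bipartiteAbove_eq_sum_card_bipartiteBelow (fun a b : ℤ => a < b)
  have h2 : ∀ x ∈ S, ((S.filter (fun s => x < s)).card : ℤ) + (S.filter (· < x)).card
      = S.card - 1 := by
    intro x hx
    have hu : S.erase x = (S.filter (fun s => x < s)) ∪ (S.filter (· < x)) := by
      ext y
      simp only [Finset.mem_erase, Finset.mem_union, Finset.mem_filter]
      constructor
      · rintro ⟨h1, h2⟩
        rcases lt_or_gt_of_ne h1 with h | h
        · exact Or.inr ⟨h2, h⟩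
        · exact Or.inl ⟨h2, h⟩
      · rintro (⟨h1, h2⟩ | ⟨h1, h2⟩)
        · exact ⟨h2.ne', h1⟩
        · exact ⟨h2.ne, h1⟩
    have hd : Disjoint (S.filter (fun s => x < s)) (S.filter (· < x)) := by
      rw [Finset.disjoint_left]
      intro y hy hy'
      rw [Finset.mem_filter] at hy hy'
      exact absurd hy.2 (by have := hy'.2; omega)
    have h3 := Finset.card_union_of_disjoint hd
    rw [← hu, Finset.card_erase_of_mem hx] at h3
    have h4 : 1 ≤ S.card := Finset.card_pos.mpr ⟨x, hx⟩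
    omega
  have h3 := Finset.sum_congr rfl h2
  rw [Finset.sum_add_distrib, Finset.sum_const, nsmul_eq_mul] at h3
  have h4 : ∑ x ∈ S, ((S.filter (fun s => x < s)).card : ℤ)
      = ∑ x ∈ S, ((S.filter (· < x)).card : ℤ) := by exact_mod_cast h1
  rw [h4] at h3
  linarith

/-- The window inequality: `2 * ∑ₓ #{x - m < s < x} ≤ n * (m - 1)`. -/
theorem sum_window (S : Finset ℤ) (m : ℤ) (hm : m ∈ S) (hm1 : 1 ≤ m)
    (hS : ∀ i ∈ S, ∀ j ∈ S, i + j ∉ S ∧ i + j + 1 ∉ S) :
    2 * ∑ x ∈ S, ((S.filter (fun s => x - m < s ∧ s < x)).card : ℤ)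
      ≤ (S.card : ℤ) * (m - 1) := by
  have h1 : ∑ x ∈ S, (S.filter (fun s => s - m < x ∧ x < s)).card
      = ∑ x ∈ S, (S.filter (fun s => x - m < s ∧ s < x)).card :=
    Finset.sum_card_bipartiteAbove_eq_sum_card_bipartiteBelow
      (fun a b : ℤ => b - m < a ∧ a < b)
  have h2 : ∀ x ∈ S, ((S.filter (fun s => s - m < x ∧ x < s)).card : ℤ)
      + (S.filter (fun s => x - m < s ∧ s < x)).card ≤ m - 1 := by
    intro x hx
    have hsub : (S.filter (fun s => s - m < x ∧ x < s)) ∪
        (S.filter (fun s => x - m < s ∧ s < x)).image (· + m) ⊆ Finset.Ioo x (x + m) := by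
      intro y hy
      rw [Finset.mem_union, Finset.mem_filter, Finset.mem_image] at hy
      rw [Finset.mem_Ioo]
      rcases hy with ⟨_, h1, h2⟩ | ⟨w, hw, rfl⟩
      · omega
      · rw [Finset.mem_filter] at hw
        have := hw.2
        omega
    have hd : Disjoint (S.filter (fun s => s - m < x ∧ x < s))
        ((S.filter (fun s => x - m < s ∧ s < x)).image (· + m)) := by
      rw [Finset.disjoint_left]
      intro y hy hy'
      rw [Finset.mem_filter] at hy
      rw [Finset.mem_image] at hy'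
      obtain ⟨w, hw, rfl⟩ := hy'
      rw [Finset.mem_filter] at hw
      exact (hS w hw.1 m hm).1 hy.1
    have h3 := Finset.card_le_card hsub
    rw [Finset.card_union_of_disjoint hd,
      Finset.card_image_of_injective _ (fun u v h => by simpa using h), Int.card_Ioo] at h3
    have h4 : ((x + m - x - 1).toNat : ℤ) = m - 1 := by omega
    omega
  have h3 := Finset.sum_le_sum h2
  rw [Finset.sum_add_distrib, Finset.sum_const, nsmul_eq_mul] at h3
  have h4 : ∑ x ∈ S, ((S.filter (fun s => s - m < x ∧ x < s)).card : ℤ)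
      = ∑ x ∈ S, ((S.filter (fun s => x - m < s ∧ s < x)).card : ℤ) := by exact_mod_cast h1
  rw [h4] at h3
  linarith

/-- The mean inequality for cell sum-free sets of positive integers. -/
theorem mean (S : Finset ℤ) (hS1 : ∀ s ∈ S, 1 ≤ s)
    (hS : ∀ i ∈ S, ∀ j ∈ S, i + j ∉ S ∧ i + j + 1 ∉ S) :
    3 * (S.card : ℤ) ^ 2 ≤ 2 * ∑ s ∈ S, s + S.card := by
  rcases S.eq_empty_or_nonempty with rfl | hne
  · simp
  set m := S.min' hne with hmdef
  have hm : m ∈ S := Finset.min'_mem _ _
  have hmin : ∀ s ∈ S, m ≤ s := fun s hs => Finset.min'_le _ _ hs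
  have hm1 : 1 ≤ m := hS1 m hm
  have h1 : ∀ x ∈ S, 3 * ((S.filter (· < x)).card : ℤ)
      - 2 * ((S.filter (fun s => x - m < s ∧ s < x)).card : ℤ) + m ≤ x := by
    intro x hx
    have h2 := pointwise S m hm hmin hm1 hS x hx
    have h3 : S.filter (· < x) = (S.filter (· ≤ x - m)) ∪
        (S.filter (fun s => x - m < s ∧ s < x)) := by
      ext y
      simp only [Finset.mem_union, Finset.mem_filter]
      constructor
      · rintro ⟨h1, h2⟩
        rcases le_or_gt y (x - m) with h | h
        · exact Or.inl ⟨h1, h⟩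
        · exact Or.inr ⟨h1, h, h2⟩
      · rintro (⟨h1, h2⟩ | ⟨h1, h2, h3⟩)
        · exact ⟨h1, by omega⟩
        · exact ⟨h1, h3⟩
    have hd : Disjoint (S.filter (· ≤ x - m)) (S.filter (fun s => x - m < s ∧ s < x)) := by
      rw [Finset.disjoint_left]
      intro y hy hy'
      rw [Finset.mem_filter] at hy hy'
      have := hy.2
      have := hy'.2.1
      omega
    have h4 := Finset.card_union_of_disjoint hd
    rw [← h3] at h4
    omega
  have h2 := Finset.sum_le_sum h1
  rw [Finset.sum_add_distrib, Finset.sum_sub_distrib, ← Finset.mul_sum, ← Finset.mul_sum,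
    Finset.sum_const, nsmul_eq_mul] at h2
  have h3 := sum_below S
  have h4 := sum_window S m hm hm1 hS
  nlinarith

/-- Truncated first moments: `∑_{s < T} (T - s) ≤ (T + 1/2)^2 / 6`. -/
theorem trunc (S : Finset ℕ) (hS : ∀ i ∈ S, ∀ j ∈ S, i + j ∉ S ∧ i + j + 1 ∉ S) (T : ℕ) :
    ∑ s ∈ S, ((T - s : ℕ) : ℝ) ≤ ((T : ℝ) + 1 / 2) ^ 2 / 6 := by
  classical
  set S' : Finset ℤ := (S.filter (· < T)).image (fun n : ℕ => (n : ℤ)) with hS'
  have hmem : ∀ x, x ∈ S' → ∃ s ∈ S, s < T ∧ (s : ℤ) = x := by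
    intro x hx
    rw [hS', Finset.mem_image] at hx
    obtain ⟨s, hs, rfl⟩ := hx
    rw [Finset.mem_filter] at hs
    exact ⟨s, hs.1, hs.2, rfl⟩
  have h1 : ∀ s ∈ S', 1 ≤ s := by
    intro x hx
    obtain ⟨s, hs, _, rfl⟩ := hmem x hx
    rcases Nat.eq_zero_or_pos s with h0 | h0
    · subst h0
      exact absurd hs (by simpa using (hS 0 hs 0 hs).1)
    · exact_mod_cast h0
  have h2 : ∀ i ∈ S', ∀ j ∈ S', i + j ∉ S' ∧ i + j + 1 ∉ S' := by
    intro x hx y hy
    obtain ⟨i, hi, _, rfl⟩ := hmem x hx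
    obtain ⟨j, hj, _, rfl⟩ := hmem y hy
    constructor
    · intro h
      obtain ⟨k, hk, _, hk2⟩ := hmem _ h
      have : k = i + j := by omega
      rw [this] at hk
      exact (hS i hi j hj).1 hk
    · intro h
      obtain ⟨k, hk, _, hk2⟩ := hmem _ h
      have : k = i + j + 1 := by omega
      rw [this] at hk
      exact (hS i hi j hj).2 hk
  have h3 := mean S' h1 h2
  have hinj : Function.Injective (fun n : ℕ => (n : ℤ)) := fun a b h => by simpa using h
  have hcard : S'.card = (S.filter (· < T)).card := Finset.card_image_of_injective _ hinj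
  have hsum : ∑ s ∈ S', s = ∑ s ∈ S.filter (· < T), (s : ℤ) := by
    rw [hS', Finset.sum_image (fun a _ b _ h => hinj h)]
  rw [hcard, hsum] at h3
  have h4 : ∑ s ∈ S, ((T - s : ℕ) : ℝ) = ∑ s ∈ S.filter (· < T), ((T : ℝ) - s) := by
    rw [Finset.sum_filter]
    refine Finset.sum_congr rfl fun s _ => ?_
    split_ifs with h
    · rw [Nat.cast_sub h.le]
    · have : T - s = 0 := by omega
      rw [this, Nat.cast_zero]
  have h5 : 3 * ((S.filter (· < T)).card : ℝ) ^ 2
      ≤ 2 * ∑ s ∈ S.filter (· < T), (s : ℝ) + (S.filter (· < T)).card := by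
    have h6 := (Int.cast_le (R := ℝ)).mpr h3
    push_cast at h6
    exact h6
  rw [h4, Finset.sum_sub_distrib, Finset.sum_const, nsmul_eq_mul]
  nlinarith [sq_nonneg ((T : ℝ) + 1 / 2 - 3 * ((S.filter (· < T)).card : ℝ))]

/-- The exponential (geometric) weight of a cell sum-free set. -/
theorem weight (S : Finset ℕ) (hS : ∀ i ∈ S, ∀ j ∈ S, i + j ∉ S ∧ i + j + 1 ∉ S)
    (ρ : ℝ) (h0 : 0 < ρ) (h1 : ρ < 1) :
    ∑ s ∈ S, (ρ ^ s - ρ ^ (s + 1)) ≤ 1 / 3 + (1 - ρ) ^ 2 / (24 * ρ) := by
  have hn : ‖ρ‖ < 1 := by rw [Real.norm_eq_abs, abs_of_pos h0]; exact h1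
  have hone : (1 - ρ) ≠ 0 := by linarith
  have hA : ∀ s : ℕ, HasSum (fun T : ℕ => ((T - s : ℕ) : ℝ) * ρ ^ T)
      (ρ ^ s * (ρ / (1 - ρ) ^ 2)) := by
    intro s
    have h2 := (hasSum_coe_mul_geometric_of_norm_lt_one hn).mul_left (ρ ^ s)
    have h3 : HasSum (fun n : ℕ => (fun T : ℕ => ((T - s : ℕ) : ℝ) * ρ ^ T) (n + s))
        (ρ ^ s * (ρ / (1 - ρ) ^ 2)) := by
      refine h2.congr_fun ?_ |> fun h => h
      intro n
      simp only [Nat.add_sub_cancel]
      ring
    have h4 := (hasSum_nat_add_iff (f := fun T : ℕ => ((T - s : ℕ) : ℝ) * ρ ^ T) s).mp h3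
    have h5 : ∑ i ∈ Finset.range s, ((i - s : ℕ) : ℝ) * ρ ^ i = 0 := by
      refine Finset.sum_eq_zero fun i hi => ?_
      rw [Finset.mem_range] at hi
      have : i - s = 0 := by omega
      rw [this]; simp
    rw [h5, add_zero] at h4
    exact h4
  have hB : HasSum (fun T : ℕ => ∑ s ∈ S, ((T - s : ℕ) : ℝ) * ρ ^ T)
      (∑ s ∈ S, ρ ^ s * (ρ / (1 - ρ) ^ 2)) := hasSum_sum fun s _ => hA s
  have hg0 : HasSum (fun T : ℕ => ρ ^ T) (1 / (1 - ρ)) := by
    have := hasSum_geometric_of_lt_one h0.le h1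
    rwa [inv_eq_one_div] at this
  have hg1 : HasSum (fun T : ℕ => ((T + 1).choose 1 : ℝ) * ρ ^ T) (1 / (1 - ρ) ^ (1 + 1)) :=
    hasSum_choose_mul_geometric_of_norm_lt_one 1 hn
  have hg2 : HasSum (fun T : ℕ => ((T + 2).choose 2 : ℝ) * ρ ^ T) (1 / (1 - ρ) ^ (2 + 1)) :=
    hasSum_choose_mul_geometric_of_norm_lt_one 2 hn
  have hC : HasSum (fun T : ℕ => (((T : ℝ) + 1 / 2) ^ 2 / 6) * ρ ^ T)
      ((1 / 3) * (1 / (1 - ρ) ^ (2 + 1)) - (1 / 3) * (1 / (1 - ρ) ^ (1 + 1))
        + (1 / 24) * (1 / (1 - ρ))) := by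
    have h2 := ((hg2.mul_left (1 / 3)).sub (hg1.mul_left (1 / 3))).add (hg0.mul_left (1 / 24))
    refine h2.congr_fun ?_ |> fun h => h
    intro T
    have h3 : ((T + 2).choose 2 : ℝ) = ((T : ℝ) + 2) * (T + 1) / 2 := by
      rw [Nat.cast_choose_two]
      push_cast
      ring
    rw [h3, Nat.choose_one_right]
    push_cast
    ring
  have hle : ∑ s ∈ S, ρ ^ s * (ρ / (1 - ρ) ^ 2) ≤ (1 / 3) * (1 / (1 - ρ) ^ (2 + 1))
      - (1 / 3) * (1 / (1 - ρ) ^ (1 + 1)) + (1 / 24) * (1 / (1 - ρ)) := by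
    refine hasSum_le ?_ hB hC
    intro T
    rw [← Finset.sum_mul]
    exact mul_le_mul_of_nonneg_right (trunc S hS T) (pow_nonneg h0.le T)
  have h5 : ∑ s ∈ S, (ρ ^ s - ρ ^ (s + 1)) = (1 - ρ) * ∑ s ∈ S, ρ ^ s := by
    rw [Finset.mul_sum]
    refine Finset.sum_congr rfl fun s _ => ?_
    ring
  rw [← Finset.sum_mul] at hle
  rw [h5]
  have h1p : 0 < 1 - ρ := by linarith
  have hmul := mul_le_mul_of_nonneg_left hle (by positivity : 0 ≤ (1 - ρ) ^ 3 / ρ)
  have e1 : (1 - ρ) ^ 3 / ρ * ((∑ s ∈ S, ρ ^ s) * (ρ / (1 - ρ) ^ 2))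
      = (1 - ρ) * ∑ s ∈ S, ρ ^ s := by
    field_simp
  have e2 : (1 - ρ) ^ 3 / ρ * ((1 / 3) * (1 / (1 - ρ) ^ (2 + 1))
      - (1 / 3) * (1 / (1 - ρ) ^ (1 + 1)) + (1 / 24) * (1 / (1 - ρ)))
      = 1 / 3 + (1 - ρ) ^ 2 / (24 * ρ) := by
    field_simp
    ring
  rw [e1, e2] at hmul
  exact hmul

/-- The discretisation: for all `ρ < 1` close to `1` the cells met by a compact product-free set
form a cell sum-free set. -/
theorem compact_bound (K : Set ℝ) (hK : IsCompact K) (hK01 : K ⊆ Set.Icc 0 1)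
    (hfree : ∀ x ∈ K, ∀ y ∈ K, x * y ∉ K) :
    MeasureTheory.volume K ≤ ENNReal.ofReal (1 / 3) := by
  classical
  rcases K.eq_empty_or_nonempty with rfl | hne
  · simp
  -- the smallest element
  obtain ⟨δ, hδK, hδmin⟩ := hK.exists_isLeast hne
  have hδ0 : 0 < δ := by
    rcases lt_or_eq_of_le (hK01 hδK).1 with h | h
    · exact h
    · exfalso
      refine hfree δ hδK δ hδK ?_
      rw [← h] at hδK ⊢
      simpa using hδK
  -- the gap
  obtain ⟨ε, hε, hgap⟩ : ∃ ε > 0, ∀ x ∈ K, ∀ y ∈ K, ∀ z ∈ K, ε ≤ |x * y - z| := by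
    have hKKK : IsCompact (K ×ˢ (K ×ˢ K)) := hK.prod (hK.prod hK)
    have hcont : ContinuousOn (fun p : ℝ × ℝ × ℝ => |p.1 * p.2.1 - p.2.2|) (K ×ˢ (K ×ˢ K)) := by
      apply Continuous.continuousOn
      fun_prop
    obtain ⟨p, hp, hmin⟩ := hKKK.exists_isMinOn ⟨(δ, δ, δ), hδK, hδK, hδK⟩ hcont
    refine ⟨|p.1 * p.2.1 - p.2.2|, ?_, fun x hx y hy z hz => ?_⟩
    · rw [gt_iff_lt, abs_pos]
      intro h
      have : p.1 * p.2.1 = p.2.2 := by linarith
      exact hfree p.1 hp.1 p.2.1 hp.2.1 (this ▸ hp.2.2)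
    · exact hmin (show (x, y, z) ∈ K ×ˢ (K ×ˢ K) from ⟨hx, hy, hz⟩)
  -- the estimate for one `ρ`
  have hone : ∀ ρ : ℝ, 0 < ρ → ρ < 1 → 2 * (1 - ρ) < ε →
      MeasureTheory.volume K ≤ ENNReal.ofReal (1 / 3 + (1 - ρ) ^ 2 / (24 * ρ)) := by
    intro ρ h0 h1 hρ
    obtain ⟨N, hN⟩ := exists_pow_lt_of_lt_one hδ0 h1
    set S : Finset ℕ := (Finset.range N).filter
      (fun s => ∃ x ∈ K, ρ ^ (s + 1) < x ∧ x ≤ ρ ^ s) with hSdef
    have hSmem : ∀ s, s ∈ S → ∃ x ∈ K, ρ ^ (s + 1) < x ∧ x ≤ ρ ^ s := by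
      intro s hs
      exact (Finset.mem_filter.mp hs).2
    have hpow1 : ∀ n : ℕ, ρ ^ n ≤ 1 := fun n => pow_le_one₀ h0.le h1.le
    have hpow0 : ∀ n : ℕ, 0 < ρ ^ n := fun n => pow_pos h0 n
    have key : ∀ i ∈ S, ∀ j ∈ S, ∀ k ∈ S, (k = i + j ∨ k = i + j + 1) → False := by
      intro i hi j hj k hk hor
      obtain ⟨x, hx, hx1, hx2⟩ := hSmem i hi
      obtain ⟨y, hy, hy1, hy2⟩ := hSmem j hj
      obtain ⟨z, hz, hz1, hz2⟩ := hSmem k hk
      have hx0 : 0 < x := (hpow0 _).trans hx1
      have hy0 : 0 < y := (hpow0 _).trans hy1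
      have hup : x * y ≤ ρ ^ (i + j) := by
        rw [pow_add]
        exact mul_le_mul hx2 hy2 hy0.le (hpow0 _).le
      have hlow : ρ ^ (i + j + 2) < x * y := by
        have : ρ ^ (i + j + 2) = ρ ^ (i + 1) * ρ ^ (j + 1) := by ring
        rw [this]
        exact mul_lt_mul'' hx1 hy1 (hpow0 _).le (hpow0 _).le
      have hzup : z ≤ ρ ^ (i + j) := by
        rcases hor with h | h
        · rw [← h]; exact hz2
        · refine hz2.trans ?_
          rw [h]
          exact pow_le_pow_of_le_one h0.le h1.le (by omega)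
      have hzlow : ρ ^ (i + j + 2) < z := by
        refine lt_of_le_of_lt ?_ hz1
        exact pow_le_pow_of_le_one h0.le h1.le (by omega)
      have hdiff : ρ ^ (i + j) - ρ ^ (i + j + 2) ≤ 2 * (1 - ρ) := by
        have e : ρ ^ (i + j) - ρ ^ (i + j + 2) = ρ ^ (i + j) * ((1 - ρ) * (1 + ρ)) := by ring
        rw [e]
        have h2 := hpow1 (i + j)
        have h3 : 0 ≤ (1 - ρ) * (1 + ρ) := by nlinarith
        nlinarith
      have hg := hgap x hx y hy z hz
      have : |x * y - z| < ε := by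
        rw [abs_lt]
        constructor <;> linarith
      linarith
    have hS : ∀ i ∈ S, ∀ j ∈ S, i + j ∉ S ∧ i + j + 1 ∉ S := fun i hi j hj =>
      ⟨fun h => key i hi j hj _ h (Or.inl rfl), fun h => key i hi j hj _ h (Or.inr rfl)⟩
    have hcover : K ⊆ ⋃ s ∈ S, Set.Ioc (ρ ^ (s + 1)) (ρ ^ s) := by
      intro x hx
      have hx0 : δ ≤ x := hδmin hx
      obtain ⟨n, hn1, hn2⟩ := exists_nat_pow_near_of_lt_one (hδ0.trans_le hx0) (hK01 hx).2 h0 h1
      have hnN : n < N := by
        by_contra h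
        push Not at h
        have : ρ ^ n ≤ ρ ^ N := pow_le_pow_of_le_one h0.le h1.le h
        linarith
      rw [Set.mem_iUnion₂]
      exact ⟨n, Finset.mem_filter.mpr ⟨Finset.mem_range.mpr hnN, x, hx, hn1, hn2⟩, hn1, hn2⟩
    calc MeasureTheory.volume K
        ≤ MeasureTheory.volume (⋃ s ∈ S, Set.Ioc (ρ ^ (s + 1)) (ρ ^ s)) :=
          MeasureTheory.measure_mono hcover
      _ ≤ ∑ s ∈ S, MeasureTheory.volume (Set.Ioc (ρ ^ (s + 1)) (ρ ^ s)) :=
          MeasureTheory.measure_biUnion_finset_le _ _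
      _ = ∑ s ∈ S, ENNReal.ofReal (ρ ^ s - ρ ^ (s + 1)) := by
          refine Finset.sum_congr rfl fun s _ => ?_
          rw [Real.volume_Ioc]
      _ = ENNReal.ofReal (∑ s ∈ S, (ρ ^ s - ρ ^ (s + 1))) := by
          rw [ENNReal.ofReal_sum_of_nonneg]
          intro s _
          have : ρ ^ (s + 1) ≤ ρ ^ s := pow_le_pow_of_le_one h0.le h1.le (Nat.le_succ s)
          linarith
      _ ≤ ENNReal.ofReal (1 / 3 + (1 - ρ) ^ 2 / (24 * ρ)) :=
          ENNReal.ofReal_le_ofReal (weight S hS ρ h0 h1)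
  -- let `ρ → 1`
  have hlim : Filter.Tendsto (fun ρ : ℝ => ENNReal.ofReal (1 / 3 + (1 - ρ) ^ 2 / (24 * ρ)))
      (nhdsWithin 1 (Set.Iio 1)) (nhds (ENNReal.ofReal (1 / 3))) := by
    refine (ENNReal.continuous_ofReal.tendsto _).comp ?_
    have hc : ContinuousAt (fun ρ : ℝ => 1 / 3 + (1 - ρ) ^ 2 / (24 * ρ)) 1 := by
      refine ContinuousAt.add continuousAt_const (ContinuousAt.div ?_ ?_ (by norm_num))
      · fun_prop
      · fun_prop
    have h2 := hc.tendsto
    have e : (1 : ℝ) / 3 + (1 - 1) ^ 2 / (24 * 1) = 1 / 3 := by norm_num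
    rw [e] at h2
    exact h2.mono_left nhdsWithin_le_nhds
  refine ge_of_tendsto hlim ?_
  have h1 : ∀ᶠ ρ : ℝ in nhdsWithin 1 (Set.Iio 1), ρ < 1 := eventually_mem_nhdsWithin
  have h2 : ∀ᶠ ρ : ℝ in nhdsWithin 1 (Set.Iio 1), 0 < ρ :=
    nhdsWithin_le_nhds (lt_mem_nhds one_pos)
  have h3 : ∀ᶠ ρ : ℝ in nhdsWithin 1 (Set.Iio 1), 1 - ε / 2 < ρ :=
    nhdsWithin_le_nhds (lt_mem_nhds (by linarith))
  filter_upwards [h1, h2, h3] with ρ h1 h2 h3
  exact hone ρ h2 h1 (by linarith)

/-- The measurable form. -/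
theorem measurable_form (A : Set ℝ) (hA01 : A ⊆ Set.Icc 0 1) (hA : MeasurableSet A)
    (hμ : ENNReal.ofReal (1 / 3) < MeasureTheory.volume A) :
    ∃ x ∈ A, ∃ y ∈ A, ∃ z ∈ A, x * y = z := by
  by_contra hcon
  push Not at hcon
  obtain ⟨K, hKA, hK, hKμ⟩ := hA.exists_lt_isCompact hμ
  refine absurd (compact_bound K hK (hKA.trans hA01) ?_) (not_le.mpr hKμ)
  intro x hx y hy hxy
  exact hcon x (hKA hx) y (hKA hy) (x * y) (hKA hxy) rfl

/-- **Theorem.**  Let `A ⊆ [0,1]` have Lebesgue measure `> 1/3`.  If `A` is open (as a subset of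
the real line), or open as a subset of `[0,1]`, or merely Lebesgue measurable (null measurable),
then there are `x, y, z ∈ A` with `x * y = z`.  This answers Q1 affirmatively. -/
theorem result :
    (∀ A : Set ℝ, A ⊆ Set.Icc 0 1 → IsOpen A → 1 / 3 < MeasureTheory.volume A →
      ∃ x ∈ A, ∃ y ∈ A, ∃ z ∈ A, x * y = z) ∧
    (∀ A : Set ℝ, A ⊆ Set.Icc 0 1 → MeasureTheory.NullMeasurableSet A MeasureTheory.volume →
      1 / 3 < MeasureTheory.volume A →
      ∃ x ∈ A, ∃ y ∈ A, ∃ z ∈ A, x * y = z) := by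
  have e : ENNReal.ofReal (1 / 3) = 1 / 3 := by
    rw [ENNReal.ofReal_div_of_pos (by norm_num)]
    simp
  refine ⟨fun A hA01 hA hμ => measurable_form A hA01 hA.measurableSet (e ▸ hμ),
    fun A hA01 hA hμ => ?_⟩
  obtain ⟨B, hBA, hBm, hBae⟩ := hA.exists_measurable_subset_ae_eq
  have hμB : MeasureTheory.volume B = MeasureTheory.volume A :=
    MeasureTheory.measure_congr hBae
  obtain ⟨x, hx, y, hy, z, hz, hxyz⟩ :=
    measurable_form B (hBA.trans hA01) hBm (by rw [hμB, e]; exact hμ)
  exact ⟨x, hBA hx, y, hBA hy, z, hBA hz, hxyz⟩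

end Pool.Agent.Results.MP_56a44b_nt.Third
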